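import Pool.Agent.Q297.PermMain

open MeasureTheory Filter Topology Q297.Permuton

namespace Pool.Agent.Results.MP_bd876b_pr.EntropyOscillates

/-- **The sampling entropy of a random fractal permuton need not converge.**  For some `d ≥ 2`
and some law `F` on `Sym(d)`, almost surely `H_n(μ_F)/n` has no limit as `n → ∞`. -/
theorem result :
    ∃ (d : ℕ) (_ : NeZero d) (F : PMF (Equiv.Perm (Fin d))), 2 ≤ d ∧
      ∀ᵐ τ ∂(treeLaw F), ¬ ∃ L : ℝ,
        Tendsto (fun n : ℕ => sampleEntropy (treePermuton τ) n / n) atTop (𝓝 L) := by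
  obtain ⟨q, hq0, hq2, h⟩ := not_tendsto
  refine ⟨q * q, inferInstance, PMF.pure (sg q), by nlinarith, ?_⟩
  have h1 : treeLaw (PMF.pure (sg q)) = Measure.dirac (fun _ => sg q) := by
    unfold treeLaw
    simp only [PMF.toMeasure_pure]
    exact Measure.infinitePi_dirac _
  rw [h1, ae_dirac_eq]
  exact h

end Pool.Agent.Results.MP_bd876b_pr.EntropyOscillates
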